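import Pool.Agent.W313.HB.Stm
import Pool.Agent.Helper919.NonRes

/-!
Project HB, part PER: sums of Jacobi symbols of a non square over intervals.
-/

set_option autoImplicit false

namespace Pool.Agent.W583.HB

open Finset

/-- the symbol at the odd numbers -/
def ff (D : ℤ) (n : ℕ) : ℤ := if Odd n then jacobiSym D n else 0

theorem ff_mod (D : ℤ) (_ : D ≠ 0) (n : ℕ) : ff D (n % (4 * D.natAbs)) = ff D n := by
  have h1 : Odd (n % (4 * D.natAbs)) ↔ Odd n := by
    rw [Nat.odd_iff, Nat.odd_iff, Nat.mod_mod_of_dvd n (⟨2 * D.natAbs, by ring⟩ : 2 ∣ 4 * D.natAbs)]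
  unfold ff
  by_cases h : Odd n
  · rw [if_pos h, if_pos (h1.2 h), ← jacobiSym.mod_right D h]
  · rw [if_neg h, if_neg (fun h' => h (h1.1 h'))]

theorem ff_add (D : ℤ) (hD : D ≠ 0) (n : ℕ) : ff D (n + 4 * D.natAbs) = ff D n := by
  rw [← ff_mod D hD (n + 4 * D.natAbs), Nat.add_mod_right, ff_mod D hD]

theorem ff_abs (D : ℤ) (n : ℕ) : |ff D n| ≤ 1 := by
  unfold ff
  split_ifs
  · rcases jacobiSym.trichotomy D n with h | h | h <;> rw [h] <;> norm_num
  · norm_num

theorem period_zero (D : ℤ) (hD : ¬ IsSquare D) : ∑ n ∈ range (4 * D.natAbs), ff D n = 0 := by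
  have hD0 : D ≠ 0 := by
    rintro rfl
    exact hD ⟨0, by simp⟩
  have hP : 0 < 4 * D.natAbs := by
    have := Int.natAbs_pos.2 hD0
    omega
  obtain ⟨d, hd, hJ⟩ := Pool.Agent.Helper919.exists_jacobi_neg_one D hD
  have hd0 : d ≠ 0 := by
    rintro rfl
    exact absurd hd (by decide)
  have hc1 : Int.gcd D d = 1 := by
    by_contra h
    have : NeZero d := ⟨hd0⟩
    have := (jacobiSym.eq_zero_iff_not_coprime (a := D) (b := d)).2 h
    rw [this] at hJ
    norm_num at hJ
  have hc : Nat.Coprime d (4 * D.natAbs) := by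
    apply Nat.Coprime.mul_right
    · have h2 : Nat.Coprime d 2 := Nat.coprime_two_right.2 hd
      have : (4 : ℕ) = 2 ^ 2 := by norm_num
      rw [this]
      exact Nat.Coprime.pow_right 2 h2
    · rw [Nat.coprime_comm]
      have : Int.gcd D d = Nat.gcd D.natAbs d := by
        rw [Int.gcd_def, Int.natAbs_natCast]
      rw [this] at hc1
      exact hc1
  have hmul : ∀ n : ℕ, ff D (n * d % (4 * D.natAbs)) = -ff D n := by
    intro n
    rw [ff_mod D hD0]
    unfold ff
    by_cases h : Odd n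
    · rw [if_pos h, if_pos (h.mul hd)]
      have hn0 : n ≠ 0 := by
        rintro rfl
        exact absurd h (by decide)
      have : NeZero n := ⟨hn0⟩
      have : NeZero d := ⟨hd0⟩
      rw [jacobiSym.mul_right, hJ, mul_neg_one]
    · have h' : ¬ Odd (n * d) := fun h2 => h (Nat.odd_mul.1 h2).1
      rw [if_neg h, if_neg h', neg_zero]
  have hbij : ∑ n ∈ range (4 * D.natAbs), ff D (n * d % (4 * D.natAbs)) =
      ∑ n ∈ range (4 * D.natAbs), ff D n := by
    have hmaps : Set.MapsTo (fun n => n * d % (4 * D.natAbs)) (range (4 * D.natAbs))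
        (range (4 * D.natAbs)) := by
      intro n _
      rw [coe_range, Set.mem_Iio]
      exact Nat.mod_lt _ hP
    have hinj : Set.InjOn (fun n => n * d % (4 * D.natAbs)) (range (4 * D.natAbs)) := by
      intro a ha b hb hab
      rw [coe_range, Set.mem_Iio] at ha hb
      have h1 : a * d ≡ b * d [MOD 4 * D.natAbs] := hab
      have h2 := Nat.ModEq.cancel_right_of_coprime hc.symm h1
      unfold Nat.ModEq at h2
      rwa [Nat.mod_eq_of_lt ha, Nat.mod_eq_of_lt hb] at h2
    have hsurj := Finset.surjOn_of_injOn_of_card_le _ hmaps hinj le_rfl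
    exact Finset.sum_nbij (fun n => n * d % (4 * D.natAbs)) hmaps hinj hsurj fun _ _ => rfl
  rw [Finset.sum_congr rfl fun n _ => hmul n, Finset.sum_neg_distrib] at hbij
  omega

section

variable {f : ℕ → ℤ} {P : ℕ}

theorem window (hper : ∀ n, f (n + P) = f n) (h0 : ∑ n ∈ range P, f n = 0) (X : ℕ) :
    ∑ n ∈ Ioc X (X + P), f n = 0 := by
  have key : ∀ Z : ℕ, ∑ n ∈ range P, f (Z + n) = 0 := by
    intro Z
    induction Z with
    | zero => simpa using h0
    | succ Z ih =>
      have h1 : ∑ n ∈ range (P + 1), f (Z + n) = ∑ n ∈ range P, f (Z + n) + f (Z + P) :=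
        Finset.sum_range_succ _ _
      have h2 : ∑ n ∈ range (P + 1), f (Z + n) = ∑ n ∈ range P, f (Z + (n + 1)) + f (Z + 0) :=
        Finset.sum_range_succ' _ _
      rw [hper, ih] at h1
      have h3 : ∑ n ∈ range P, f (Z + 1 + n) = ∑ n ∈ range P, f (Z + (n + 1)) :=
        Finset.sum_congr rfl fun n _ => by rw [add_assoc, add_comm 1 n]
      rw [h3]
      rw [h1, add_zero] at h2
      linarith
  have h1 : Ioc X (X + P) = Ico (X + 1) (X + 1 + P) := by
    ext n
    simp only [mem_Ioc, mem_Ico]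
    omega
  rw [h1, Finset.sum_Ico_eq_sum_range, Nat.add_sub_cancel_left]
  exact key (X + 1)

theorem bound (hP : 0 < P) (hper : ∀ n, f (n + P) = f n) (h0 : ∑ n ∈ range P, f n = 0)
    (hf : ∀ n, |f n| ≤ 1) (Y : ℕ) : ∀ X : ℕ, |∑ n ∈ Ioc X Y, f n| ≤ P := by
  have key : ∀ m X : ℕ, Y - X ≤ m → |∑ n ∈ Ioc X Y, f n| ≤ P := by
    intro m
    induction m using Nat.strong_induction_on with
    | _ m ih =>
      intro X hX
      rcases lt_or_ge (Y - X) P with h | h
      · calc |∑ n ∈ Ioc X Y, f n| ≤ ∑ n ∈ Ioc X Y, |f n| := Finset.abs_sum_le_sum_abs _ _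
          _ ≤ ∑ _n ∈ Ioc X Y, 1 := Finset.sum_le_sum fun n _ => hf n
          _ = ((Y - X : ℕ) : ℤ) := by
              rw [Finset.sum_const, Nat.card_Ioc, nsmul_eq_mul, mul_one]
          _ ≤ P := by exact_mod_cast h.le
      · have hu : Ioc X Y = Ioc X (X + P) ∪ Ioc (X + P) Y := by
          rw [Finset.Ioc_union_Ioc_eq_Ioc (by omega) (by omega)]
        have hd : Disjoint (Ioc X (X + P)) (Ioc (X + P) Y) := by
          rw [Finset.disjoint_left]
          intro n hn hn'
          rw [mem_Ioc] at hn hn'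
          omega
        rw [hu, Finset.sum_union hd, window hper h0, zero_add]
        exact ih (m - 1) (by omega) (X + P) (by omega)
  exact fun X => key _ X le_rfl

end

open Pool.Agent.W313.HB in
/-- Part PER: sums of Jacobi symbols of a non square. -/
theorem per_ : S_PER := by
  intro D hD X Y
  have hD0 : D ≠ 0 := by
    rintro rfl
    exact hD ⟨0, by simp⟩
  have hP : 0 < 4 * D.natAbs := by
    have := Int.natAbs_pos.2 hD0
    omega
  have h := bound (f := ff D) hP (ff_add D hD0) (period_zero D hD) (ff_abs D) Y X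
  have e : ((4 * D.natAbs : ℕ) : ℤ) = 4 * |D| := by
    push_cast
    rfl
  rw [e] at h
  have e2 : ∑ n ∈ (Ioc X Y).filter (fun n => Odd n), jacobiSym D n = ∑ n ∈ Ioc X Y, ff D n := by
    rw [Finset.sum_filter]
    rfl
  rw [e2]
  exact h

end Pool.Agent.W583.HB
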